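import Pool.Agent.N375.AV.D
import Pool.Agent.T9h59.RV.Base

/-!
# A prime between `√N` and `4 √N` plus an almost prime, for all even numbers near values of additive functions and their
# compositions

Let `F = f_1 ∘ ⋯ ∘ f_k` be a composition of functions dominated by the largest prime factor: for example additive functions
`f` with `f (q^j) ≤ C q^j` at the prime powers, with different values at different large primes (the sum of the prime factors),
the largest prime factor itself, and Kempner's function. Let `G` have steps bounded below by a positive constant and growth at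
most `v ^ d`, for example `G v = α v ^ d`. Let `s > 0`, `s > 2 / Λ_r - 1/2`, where `Λ_r = r + 1 - log (4 / (1 + 3 ^ (-r))) / log 3`;
for instance `(r, s) = (2, 0.591), (3, 0.222), (4, 0.034)`. For all `m ≤ X` but `K X exp (- c (log X)^(1 / (k + 1)))` ALL even
`N` with `|N - G (F m)| ≤ F(m) ^ κ` have at least `δ 𝔖(N) √N / (log N) ^ 2` primes `p` with `√N < p < 4 √N` such that `N - p`
has at most `r` prime factors, all of them at least `N ^ (1/16)`, if `d s + κ < 1`.

The values of `F` are taken with very large multiplicities and `F(m)` is in general much smaller than `m`, of the size of a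
power of `m` with an exponent which has a distribution function; and so this does not follow from the number of exceptional
`N`, which is at most `C X ^ s`.

Method: the number of exceptions of `Pool.Agent.K3h19.RV.few` and the bounds for preimages of thin sets of `N375/AV`
(starting library).
-/

set_option autoImplicit false

namespace Pool.Agent.Results.MP_b454d1_nt.AdditiveValues

open Finset
open Pool.Agent.N733.TG (Expanding expanding_pow)
open Pool.Agent.N375.AV (PD comp good_nat pd_additive pd_largest pd_kempner)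
open Pool.Agent.T9h59.RV (Expo Rich)

/-- **Rivera's window near the values of compositions of additive functions.** Let `(r, s)` be admissible (`Expo`), for
instance `(2, 0.591)`, `(3, 0.222)` or `(4, 0.034)`. There is `δ > 0` such that the following holds. Let
`F = f_1 ∘ ⋯ ∘ f_k`, `f_i` dominated by the largest prime factor. Let `G` have steps `≥ a > 0` and growth at most `v ^ d`,
`κ ≥ 0` and `d s + κ < 1`. For all `m ≤ X` but `K X exp (- c (log X)^(1 / (k + 1)))` ALL even `N ≥ 1` with
`|N - G (F m)| ≤ F(m) ^ κ` have at least `δ 𝔖(N) √N / (log N) ^ 2` primes `p` with `√N < p < 4 √N` such that `N - p` has at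
most `r` prime factors, all of them at least `N ^ (1/16)`. The additive functions with `f (q^j) ≤ C q^j` which are injective
at the large primes, the largest prime factor and Kempner's function are examples of such functions `f_i`, and `α v ^ d` with
`α > 0`, `d ≥ 1` is an example of `G`. -/
theorem result :
    (∀ (r : ℕ) (s : ℝ), Expo r s → ∃ δ : ℝ, 0 < δ ∧
      ∀ fs : List (ℕ → ℕ), (∀ f ∈ fs, PD f) → ∀ (G : ℕ → ℝ) (d κ : ℝ), Expanding G d → 0 ≤ κ → d * s + κ < 1 →
      ∃ c K : ℝ, 0 < c ∧ ∀ X : ℕ, 1 ≤ X →
      ({m : ℕ | 1 ≤ m ∧ m ≤ X ∧ ¬ ∀ N : ℕ, 1 ≤ N → Even N → |(N : ℝ) - G (comp fs m)| ≤ (comp fs m : ℝ) ^ κ →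
        Rich r δ N}.ncard : ℝ) ≤ K * X * Real.exp (-(c * Real.log X ^ ((1 : ℝ) / (fs.length + 1))))) ∧
    (Expo 2 (591 / 1000) ∧ Expo 3 (222 / 1000) ∧ Expo 4 (34 / 1000)) ∧
    (∀ f : ℕ → ℕ, (∀ a b : ℕ, Nat.Coprime a b → f (a * b) = f a + f b) →
      (∃ C : ℕ, ∀ q j : ℕ, q.Prime → 1 ≤ j → f (q ^ j) ≤ C * q ^ j) →
      (∃ P : ℕ, ∀ p q : ℕ, p.Prime → q.Prime → P ≤ p → P ≤ q → f p = f q → p = q) → PD f) ∧
    (PD (fun n => n.primeFactors.sup id) ∧ PD (fun n => sInf {k : ℕ | n ∣ k.factorial})) ∧
    ∀ α d : ℝ, 0 < α → 1 ≤ d → Expanding (fun v => α * (v : ℝ) ^ d) d := by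
  refine ⟨fun r s h => ?_, Pool.Agent.T9h59.RV.expo_num, fun f h2 h3 h4 => pd_additive h2 h3 h4,
    ⟨pd_largest, pd_kempner⟩, fun α d hα hd => expanding_pow hα hd⟩
  obtain ⟨δ, hδ, hcount⟩ := Pool.Agent.T9h59.RV.count' r s h
  refine ⟨δ, hδ, fun fs hfs G d κ hG hκ h1 => ?_⟩
  exact good_nat (fun N => Even N) (Rich r δ) fs hfs hG (s := s) h.2.1.le hκ h1 hcount

end Pool.Agent.Results.MP_b454d1_nt.AdditiveValues
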