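import Pool.Agent.N251.LF.Win
import Pool.Agent.T9h59.RV.Base

/-!
# A prime between `√N` and `4 √N` plus an almost prime, for all even numbers near the values of generic polynomials and linear
# forms

Let `v_i`, `i` in a countable set, be vectors in `ℝ^k`, `O(X^(τ + ε))` of them of norm at most `X` for every `ε > 0`: for
instance `(1, n, …, n^d)` with `τ = 1 / d`, or `(b_1^(n_1), …, b_k^(n_k))`, `b_j > 1`, for all `n_1, …, n_k`, with `τ = 0`, or
`(n_1^(a_1), …, n_k^(a_k))` with `τ = ∑ 1 / a_j`. Let `s > 0`, `s > 2 / Λ_r - 1/2`, where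
`Λ_r = r + 1 - log (4 / (1 + 3 ^ (-r))) / log 3`; for instance `(r, s) = (2, 0.591), (3, 0.222), (4, 0.034)`. Let `θ < 1`. For
all `α` in `ℝ^k` outside a set of Hausdorff dimension at most `k - 1 + (s + τ) / (1 - θ)` and all `c`, for all but finitely many
`i`, ALL even `N ≥ 1` with `|N - α · v_i| ≤ c ‖v_i‖^θ` have at least `δ 𝔖(N) √N / (log N) ^ 2` primes `p` with
`√N < p < 4 √N` such that `N - p` has at most `r` prime factors, all of them at least `N ^ (1/16)`.

The bound for the dimension is less than `k` if `s + τ + θ < 1`: so this holds near `f(n)`, `n` large, without exceptions, for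
almost all real polynomials `f` of degree `d` with `s + 1 / d < 1` (`d ≥ 3` for `r = 2`, `d ≥ 2` for `r ≥ 3`), and near the
numbers `α_1 b_1^(n_1) + … + α_k b_k^(n_k)` for almost all `α`. The starting theorems `RiveraWindows` and `StarshapedRivera`
treat one parameter `α` only.

Method: the number of exceptions of `Pool.Agent.K3h19.RV.few` and the windows around the values of generic linear forms
of `N251/LF` (starting library).
-/

set_option autoImplicit false

namespace Pool.Agent.Results.MP_b454d1_nt.GenericLinearForms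

open Finset
open Pool.Agent.N251.LF (Fam Sq linear_good_nat)
open Pool.Agent.T9h59.RV (Expo Rich)

/-- **Rivera's window near the values of generic polynomials and linear forms.** Let `(r, s)` be admissible (`Expo`), for
instance `(2, 0.591)`, `(3, 0.222)` or `(4, 0.034)`. There is `δ > 0` such that for every family `v` of vectors in `ℝ^k` with
`O_ε(X^(τ + ε))` members of norm at most `X`, and all `θ < 1`, there is a set `E` of Hausdorff dimension at most
`k - 1 + (s + τ) / (1 - θ)` such that for all `α` outside `E` and all `c`, for all but finitely many `i`, ALL even `N ≥ 1` with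
`|N - α · v_i| ≤ c ‖v_i‖^θ` have at least `δ 𝔖(N) √N / (log N) ^ 2` primes `p` with `√N < p < 4 √N` such that `N - p` has at
most `r` prime factors, all of them at least `N ^ (1/16)`. Examples of the families. -/
theorem result :
    (∀ (r : ℕ) (s : ℝ), Expo r s → ∃ δ : ℝ, 0 < δ ∧
      ∀ (k : ℕ) (ι : Type) (v : ι → Fin k → ℝ) (τ θ : ℝ), Fam v τ → 0 ≤ τ → θ < 1 →
      ∃ E : Set (Fin k → ℝ), dimH E ≤ ENNReal.ofReal ((k : ℝ) - 1 + (s + τ) / (1 - θ)) ∧
        ∀ α, α ∉ E → ∀ c : ℝ,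
          {i | ¬ ∀ N : ℕ, 1 ≤ N → Even N → |(N : ℝ) - ∑ j, α j * v i j| ≤ c * ‖v i‖ ^ θ → Rich r δ N}.Finite) ∧
    (Expo 2 (591 / 1000) ∧ Expo 3 (222 / 1000) ∧ Expo 4 (34 / 1000)) ∧
    (∀ d : ℕ, 1 ≤ d → Fam (fun (n : ℕ) (j : Fin (d + 1)) => (n : ℝ) ^ (j : ℕ)) (1 / d)) ∧
    (∀ (k : ℕ) (b : Fin k → ℝ), (∀ j, 1 < b j) → Fam (fun (n : Fin k → ℕ) (j : Fin k) => b j ^ n j) 0) ∧
    (∀ (k : ℕ) (a : Fin k → ℝ), (∀ j, 0 < a j) →
      Fam (fun (n : Fin k → ℕ) (j : Fin k) => (n j : ℝ) ^ a j) (∑ j, 1 / a j)) ∧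
    ∀ (k : ℕ) (u : Fin k → ℕ → ℝ) (τ : Fin k → ℝ), (∀ j, Sq (u j) (τ j)) →
      Fam (fun (n : Fin k → ℕ) (j : Fin k) => u j (n j)) (∑ j, τ j) := by
  refine ⟨fun r s h => ?_, Pool.Agent.T9h59.RV.expo_num, Pool.Agent.N251.LF.examples⟩
  obtain ⟨δ, hδ, hcount⟩ := Pool.Agent.T9h59.RV.count' r s h
  refine ⟨δ, hδ, fun k ι v τ θ hv hτ hθ => ?_⟩
  obtain ⟨E, h1, h2⟩ := linear_good_nat (fun N => Even N) (Rich r δ) v (s := s) h.2.1.le hτ hθ hv hcount
  exact ⟨E, h1, h2⟩

end Pool.Agent.Results.MP_b454d1_nt.GenericLinearForms
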