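import Pool.Agent.T9h59.OR.C
import Pool.Agent.T9h59.RV.Base

/-!
# A prime between `√N` and `4 √N` plus an almost prime, for all even numbers near the orders of the subgroups of `F_p^*`

Let `G` be a real sequence with steps bounded below by a positive constant and growth at most `v^d`, `κ ≥ 0` and
`σ = d s + κ < 1`, where `(r, s)` is admissible (`Expo`), and `0 ≤ c < 1`. For all primes `q ≤ X` but `O(X^(1 - ρ))`,
`ρ < (1 - c) (1 - σ) / 2`: for ALL subgroups of `F_q^*` which contain an integer `a`, `2 ≤ a ≤ X^c`, for example those generated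
by such an integer, ALL even `N ≥ 1` with `|N - G w| ≤ w^κ`, `w` the order of the subgroup, have at least
`δ 𝔖(N) √N / (log N) ^ 2` primes `p` with `√N < p < 4 √N` such that `N - p` has at most `r` prime factors, all of them at
least `N ^ (1/16)`. The number of the `w` which occur is not restricted, one prime has many subgroups of this kind, and one `w` can occur for
many primes; the proof counts the primes `q` with `q ∣ a ^ w - 1` for small `w`, and the cofactors `(q - 1) / w` for large `w`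
(`T9h59/OR`).

The number of the exceptional `N` is bounded by `Pool.Agent.K3h19.RV.few` (starting library).
-/

set_option autoImplicit false

namespace Pool.Agent.Results.MP_b454d1_nt.SubgroupOrders

open Pool.Agent.N733.TG (Expanding expanding_pow)
open Pool.Agent.T9h59.OR (SubOrder sub_good_nat subOrder_orderOf)
open Pool.Agent.T9h59.RV (Expo Rich)

/-- **Rivera's window near the orders of subgroups of `F_q^*`.** Let `(r, s)` be admissible (`Expo`), for instance
`(2, 0.591)`, `(3, 0.222)` or `(4, 0.034)`. There is `δ > 0` such that the following holds. Let `G` have steps `≥ a > 0` and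
growth at most `v ^ d`, let `κ ≥ 0`, `σ = d s + κ < 1`, `0 ≤ c < 1` and `ρ < (1 - c) (1 - σ) / 2`. For all primes `q ≤ X` but
`C X^(1 - ρ)`: for the order `w` of EVERY subgroup of `F_q^*` which contains an integer `a`, `2 ≤ a ≤ X^c`
(`SubOrder (X ^ c) q w`), ALL even `N ≥ 1` with `|N - G w| ≤ w ^ κ` have at least `δ 𝔖(N) √N / (log N) ^ 2` primes `p` with
`√N < p < 4 √N` such that `N - p` has at most `r` prime factors, all of them at least `N ^ (1/16)`. The order of `a` modulo
`q` is such a number `w`, and `α v ^ d` with `α > 0`, `d ≥ 1` is an example of `G`. -/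
theorem result :
    (∀ (r : ℕ) (s : ℝ), Expo r s → ∃ δ : ℝ, 0 < δ ∧
      ∀ (G : ℕ → ℝ) (d κ : ℝ), Expanding G d → 0 ≤ κ → d * s + κ < 1 →
      ∀ c ρ : ℝ, 0 ≤ c → c < 1 → ρ < (1 - c) * (1 - (d * s + κ)) / 2 → ∃ C : ℝ, ∀ X : ℕ, 1 ≤ X →
      ({q : ℕ | q.Prime ∧ q ≤ X ∧ ¬ ∀ w, SubOrder ((X : ℝ) ^ c) q w → ∀ N : ℕ, 1 ≤ N → Even N →
        |(N : ℝ) - G w| ≤ (w : ℝ) ^ κ → Rich r δ N}.ncard : ℝ) ≤ C * (X : ℝ) ^ (1 - ρ)) ∧
    (Expo 2 (591 / 1000) ∧ Expo 3 (222 / 1000) ∧ Expo 4 (34 / 1000)) ∧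
    (∀ (B : ℝ) (p a : ℕ), p.Prime → 2 ≤ a → (a : ℝ) ≤ B → ¬ p ∣ a → SubOrder B p (orderOf (a : ZMod p))) ∧
    ∀ α d : ℝ, 0 < α → 1 ≤ d → Expanding (fun v => α * (v : ℝ) ^ d) d := by
  refine ⟨fun r s h => ?_, Pool.Agent.T9h59.RV.expo_num, fun B p a hp ha haB hpa => subOrder_orderOf hp ha haB hpa,
    fun α d hα hd => expanding_pow hα hd⟩
  obtain ⟨δ, hδ, hcount⟩ := Pool.Agent.T9h59.RV.count' r s h
  refine ⟨δ, hδ, fun G d κ hG hκ h1 c ρ hc0 hc1 hρ => ?_⟩
  exact sub_good_nat (fun N => Even N) (Rich r δ) hG (s := s) h.2.1.le hκ h1 hcount hc0 hc1 hρ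

end Pool.Agent.Results.MP_b454d1_nt.SubgroupOrders
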