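import Pool.Agent.N760.IT.C
import Pool.Agent.T9h59.RV.Base

/-!
# A prime between `√N` and `4 √N` plus an almost prime, for all even numbers near the members of almost all orbits of Euler's
# function

Let `φ_k` be the `k`-th iterate of Euler's function. Let `f` be a positive multiplicative function of at most polynomial growth
with `f p ≤ M p` for the large primes `p` and with different values at different large primes; for example the identity, Euler's
function or the sum of the divisors. Let `G` have steps bounded below by a positive constant and growth at most `v ^ d`, for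
example `G v = α v ^ d`. Let `s > 0`, `s > 2 / Λ_r - 1/2`, where `Λ_r = r + 1 - log (4 / (1 + 3 ^ (-r))) / log 3`; for
instance `(r, s) = (2, 0.591), (3, 0.222), (4, 0.034)`. There is `K(m)` tending to infinity such that for almost all `m`, for all
`k ≤ K(m)`, with `v = f(φ_k(m))`, ALL even `N` with `|N - G v| ≤ v ^ κ` have at least `δ 𝔖(N) √N / (log N) ^ 2` primes `p` with
`√N < p < 4 √N` such that `N - p` has at most `r` prime factors, all of them at least `N ^ (1/16)`, if `d s + κ < 1`.

For one multiplicative function of `m` and `r ≤ 3` a similar result, with the larger exponents `1/2` and `13/22` in the place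
of `0.222` and `0.591`, is the starting theorem `MultiplicativeValues`. The iterates of Euler's function are not
multiplicative, their values form a thin set and are taken with very large multiplicities; the result does not
follow from the number of exceptional `N`.

Method: the number of exceptions of `Pool.Agent.K3h19.RV.few` and the iteration method of `N760/IT` (starting library).
-/

set_option autoImplicit false

namespace Pool.Agent.Results.MP_b454d1_nt.TotientOrbits

open Finset Filter
open Pool.Agent.N733.TG (LM Expanding lm_totient lm_sigma expanding_pow)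
open Pool.Agent.N760.IT (orb lm_id)
open Pool.Agent.N826.IT.Orb (AlmostAll)
open Pool.Agent.T9h59.RV (Expo Rich)

/-- **Rivera's window along the orbits of Euler's function.** Let `(r, s)` be admissible (`Expo`), for instance
`(2, 0.591)`, `(3, 0.222)` or `(4, 0.034)`. There is `δ > 0` such that the following holds. Let `f` be multiplicative and
positive, of at most polynomial growth, with `f p ≤ M p` at the large primes, and injective there. Let `G` have steps `≥ a > 0`
and growth at most `v ^ d`, and let `κ ≥ 0`, `d s + κ < 1`. Then there is `K(m)` tending to infinity such that for almost all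
`m`, for all `k ≤ K(m)`, with `v = f(φ_k(m))` (`orb f k m`), ALL even `N ≥ 1` with `|N - G v| ≤ v ^ κ` have at least
`δ 𝔖(N) √N / (log N) ^ 2` primes `p` with `√N < p < 4 √N` such that `N - p` has at most `r` prime factors, all of them at
least `N ^ (1/16)`. The identity, Euler's function and the sum of the divisors are examples of such functions `f`, and
`α v ^ d` with `α > 0`, `d ≥ 1` is an example of `G`. -/
theorem result :
    (∀ (r : ℕ) (s : ℝ), Expo r s → ∃ δ : ℝ, 0 < δ ∧
      ∀ f : ℕ → ℕ, LM f → ∀ (G : ℕ → ℝ) (d κ : ℝ), Expanding G d → 0 ≤ κ → d * s + κ < 1 →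
      ∃ K : ℕ → ℕ, Tendsto K atTop atTop ∧
        AlmostAll (fun m => ∀ k ≤ K m, ∀ N : ℕ, 1 ≤ N → Even N →
          |(N : ℝ) - G (orb f k m)| ≤ (orb f k m : ℝ) ^ κ → Rich r δ N)) ∧
    (Expo 2 (591 / 1000) ∧ Expo 3 (222 / 1000) ∧ Expo 4 (34 / 1000)) ∧
    (LM (fun m => m) ∧ LM Nat.totient ∧ LM (fun m => ∑ d ∈ m.divisors, d)) ∧
    ∀ α d : ℝ, 0 < α → 1 ≤ d → Expanding (fun v => α * (v : ℝ) ^ d) d := by
  refine ⟨fun r s h => ?_, Pool.Agent.T9h59.RV.expo_num, ⟨lm_id, lm_totient, lm_sigma⟩,
    fun α d hα hd => expanding_pow hα hd⟩
  obtain ⟨δ, hδ, hcount⟩ := Pool.Agent.T9h59.RV.count' r s h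
  refine ⟨δ, hδ, fun f hf G d κ hG hκ h1 => ?_⟩
  exact Pool.Agent.N760.IT.orbit_good_nat (fun N => Even N) (Rich r δ) hf hG (s := s) h.2.1.le hκ h1 hcount

end Pool.Agent.Results.MP_b454d1_nt.TotientOrbits
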